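import Mathlib

set_option autoImplicit false

namespace Pool.Agent.Results.MP_f6f6d4_al.McLainSquare

open Equiv

/-! ### Definitions used in the statement -/

/-- Characteristically simple groups. -/
def CharSimple (T : Type) [Group T] : Prop :=
  Nontrivial T ∧ ∀ N : Subgroup T, N.Characteristic → N = ⊥ ∨ N = ⊤

/-- FCR-groups: finite direct powers `S ^ k`, `k ≥ 1`, of non-abelian simple groups. -/
def IsFCR (T : Type) [Group T] : Prop :=
  ∃ (S : Type) (_ : Group S) (k : ℕ), 1 ≤ k ∧ IsSimpleGroup S ∧ (∃ a b : S, a * b ≠ b * a) ∧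
    Nonempty (T ≃* (Fin k → S))

/-- The diagonal subgroup `δ(T)` of `T ^ (m+1)`. -/
def diag (T : Type) [Group T] (m : ℕ) : Subgroup (Fin (m + 1) → T) where
  carrier := {t | ∃ s : T, ∀ i, t i = s}
  mul_mem' := by
    rintro a b ⟨s, hs⟩ ⟨s', hs'⟩
    exact ⟨s * s', fun i => by rw [Pi.mul_apply, hs, hs']⟩
  one_mem' := ⟨1, fun _ => rfl⟩
  inv_mem' := by
    rintro a ⟨s, hs⟩
    exact ⟨s⁻¹, fun i => by rw [Pi.inv_apply, hs]⟩

/-- The set `Ω` of right cosets `δ(T) x`. -/
def Om (T : Type) [Group T] (m : ℕ) : Type := Quotient (QuotientGroup.rightRel (diag T m))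

/-- The coset of `t`. -/
def cls {T : Type} [Group T] {m : ℕ} (t : Fin (m + 1) → T) : Om T m := Quotient.mk _ t

/-- The diagonal group `D(T, m)`, generated by the right multiplications, the maps induced by automorphisms
of `T` and the permutations of the coordinates. -/
def DGroup (T : Type) [Group T] (m : ℕ) : Subgroup (Perm (Om T m)) :=
  Subgroup.closure ({π | ∃ g : Fin (m + 1) → T, ∀ t, π (cls t) = cls (t * g)} ∪
    {π | ∃ α : T ≃* T, ∀ t : Fin (m + 1) → T, π (cls t) = cls (fun i => α (t i))} ∪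
    {π | ∃ s : Perm (Fin (m + 1)), ∀ t : Fin (m + 1) → T, π (cls t) = cls (fun i => t (s i))})

/-- The partition `Q_J` of the Cartesian lattice transported to `Ω`: two points are in the same part iff their
images in `Δ ^ n` agree in every coordinate outside `J`. -/
def QJ {Ω Δ : Type} {n : ℕ} (e : Ω ≃ (Fin n → Δ)) (J : Set (Fin n)) : Setoid Ω where
  r x y := ∀ i, i ∉ J → e x i = e y i
  iseqv := ⟨fun _ _ _ => rfl, fun h i hi => (h i hi).symm, fun h h' i hi => (h i hi).trans (h' i hi)⟩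

/-- The permutation group `G` on `Ω` preserves a Cartesian lattice. -/
def PreservesCartesian {Ω : Type} (G : Subgroup (Perm Ω)) : Prop :=
  ∃ (Δ : Type) (n : ℕ), Nontrivial Δ ∧ 2 ≤ n ∧ ∃ e : Ω ≃ (Fin n → Δ), ∀ π ∈ G,
    (fun S : Setoid Ω => S.comap π.symm) '' {S | ∃ J, S = QJ e J} = {S | ∃ J, S = QJ e J}

/-! ### Squares of a group `M` -/

section square

variable {M : Type} [Group M]

/-- the kernels of the two projections -/
def K (i : Fin 2) : Subgroup (M × M) where
  carrier := {x | if i = 0 then x.1 = 1 else x.2 = 1}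
  mul_mem' := by
    intro a b ha hb
    fin_cases i <;> simp_all
  one_mem' := by fin_cases i <;> simp
  inv_mem' := by
    intro a ha
    fin_cases i <;> simp_all

theorem mem_K0 (x : M × M) : x ∈ K (0 : Fin 2) ↔ x.1 = 1 := Iff.rfl
theorem mem_K1 (x : M × M) : x ∈ K (1 : Fin 2) ↔ x.2 = 1 := Iff.rfl

instance K_normal (i : Fin 2) : (K i : Subgroup (M × M)).Normal := by
  refine ⟨fun x hx g => ?_⟩
  fin_cases i
  · have h : x.1 = 1 := hx
    change (g * x * g⁻¹).1 = 1
    simp [h]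
  · have h : x.2 = 1 := hx
    change (g * x * g⁻¹).2 = 1
    simp [h]

theorem K_inf {i j : Fin 2} (h : i ≠ j) : (K i ⊓ K j : Subgroup (M × M)) = ⊥ := by
  rw [eq_bot_iff]
  rintro x ⟨h1, h2⟩
  fin_cases i <;> fin_cases j
  · exact absurd rfl h
  · exact Prod.ext h1 h2
  · exact Prod.ext h2 h1
  · exact absurd rfl h

variable (hZ : ∀ g : M, g ≠ 1 → ∃ x, x * g ≠ g * x)
  (hI : ∀ N₁ N₂ : Subgroup M, N₁.Normal → N₂.Normal → N₁ ≠ ⊥ → N₂ ≠ ⊥ → N₁ ⊓ N₂ ≠ ⊥)

include hZ in
theorem centralizer_K {i j : Fin 2} (h : i ≠ j) :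
    Subgroup.centralizer ((K i : Subgroup (M × M)) : Set (M × M)) = K j := by
  have key : ∀ a : M, (∀ y, a * y = y * a) → a = 1 := by
    intro a ha
    by_contra hne
    obtain ⟨x, hx⟩ := hZ a hne
    exact hx (ha x).symm
  apply le_antisymm
  · intro z hz
    rw [Subgroup.mem_centralizer_iff] at hz
    fin_cases i <;> fin_cases j
    · exact absurd rfl h
    · refine key _ fun y => ?_
      have := hz (1, y) rfl
      exact (congrArg Prod.snd this).symm
    · refine key _ fun y => ?_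
      have := hz (y, 1) rfl
      exact (congrArg Prod.fst this).symm
    · exact absurd rfl h
  · intro z hz
    rw [Subgroup.mem_centralizer_iff]
    intro y hy
    fin_cases i <;> fin_cases j
    · exact absurd rfl h
    · have h1 : y.1 = 1 := hy
      have h2 : z.2 = 1 := hz
      ext <;> simp [h1, h2]
    · have h1 : y.2 = 1 := hy
      have h2 : z.1 = 1 := hz
      ext <;> simp [h1, h2]
    · exact absurd rfl h

include hI in
theorem K_inter (i : Fin 2) (X Y : Subgroup (M × M)) (hX : X.Normal) (hY : Y.Normal) (hXK : X ≤ K i)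
    (hYK : Y ≤ K i) (hX0 : X ≠ ⊥) (hY0 : Y ≠ ⊥) : X ⊓ Y ≠ ⊥ := by
  have main : ∀ (f : M →* M × M), (∀ x, x ∈ K i → ∃ a, f a = x) → (Function.Injective f) →
      (∀ (N : Subgroup (M × M)), N.Normal → (N.comap f).Normal) → X ⊓ Y ≠ ⊥ := by
    intro f hf hinj hn
    have h1 : ∀ N : Subgroup (M × M), N ≤ K i → N ≠ ⊥ → N.comap f ≠ ⊥ := by
      intro N hN hN0 h
      apply hN0
      rw [eq_bot_iff]
      intro x hx
      obtain ⟨a, rfl⟩ := hf x (hN hx)
      have : a ∈ N.comap f := hx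
      rw [h, Subgroup.mem_bot] at this
      rw [this, map_one]; exact one_mem _
    have h2 := hI _ _ (hn X hX) (hn Y hY) (h1 X hXK hX0) (h1 Y hYK hY0)
    intro h3
    apply h2
    rw [← Subgroup.comap_inf, h3, eq_bot_iff]
    intro a ha
    have : f a = 1 := ha
    rw [Subgroup.mem_bot]
    exact hinj (this.trans (map_one f).symm)
  fin_cases i
  · refine main (MonoidHom.inr M M) (fun x hx => ⟨x.2, ?_⟩) (fun a b h => congrArg Prod.snd h) (fun N hN => hN.comap _)
    have h1 : x.1 = 1 := hx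
    ext
    · exact h1.symm
    · rfl
  · refine main (MonoidHom.inl M M) (fun x hx => ⟨x.1, ?_⟩) (fun a b h => congrArg Prod.fst h) (fun N hN => hN.comap _)
    have h1 : x.2 = 1 := hx
    ext
    · rfl
    · exact h1.symm

theorem le_centralizer {G : Type} [Group G] {X Y : Subgroup G} (hX : X.Normal) (hY : Y.Normal) (h : X ⊓ Y = ⊥) :
    X ≤ Subgroup.centralizer (Y : Set G) := by
  intro x hx
  rw [Subgroup.mem_centralizer_iff]
  intro y hy
  exact (Subgroup.commute_of_normal_of_disjoint X Y hX hY (disjoint_iff.2 h) x y hx hy).symm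

variable [Nontrivial M]

theorem K_ne_bot (i : Fin 2) : (K i : Subgroup (M × M)) ≠ ⊥ := by
  intro h
  obtain ⟨a, ha⟩ := exists_ne (1 : M)
  fin_cases i
  · have : ((1, a) : M × M) ∈ (K 0 : Subgroup (M × M)) := rfl
    change (K 0 : Subgroup (M × M)) = ⊥ at h
    rw [h, Subgroup.mem_bot] at this
    exact ha (congrArg Prod.snd this)
  · have : ((a, 1) : M × M) ∈ (K 1 : Subgroup (M × M)) := rfl
    change (K 1 : Subgroup (M × M)) = ⊥ at h
    rw [h, Subgroup.mem_bot] at this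
    exact ha (congrArg Prod.fst this)

include hZ hI in
theorem aut_K (α : (M × M) ≃* (M × M)) : ∃ ρ : Perm (Fin 2), ∀ i x, x ∈ K i ↔ α x ∈ K (ρ i) := by
  set B : Fin 2 → Subgroup (M × M) := fun i => (K i).map α.toMonoidHom with hB
  have hBn : ∀ i, (B i).Normal := fun i => (K_normal i).map _ α.surjective
  have hB0 : ∀ i, B i ≠ ⊥ := by
    intro i h
    apply K_ne_bot (M := M) i
    rwa [hB, Subgroup.map_eq_bot_iff_of_injective _ α.injective] at h
  have hBinf : ∀ {i j}, i ≠ j → B i ⊓ B j = ⊥ := by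
    intro i j hij
    rw [hB, ← Subgroup.map_inf _ _ _ α.injective, K_inf hij, Subgroup.map_bot]
  have hBI : ∀ (i : Fin 2) (X Y : Subgroup (M × M)), X.Normal → Y.Normal → X ≤ B i → Y ≤ B i → X ≠ ⊥ → Y ≠ ⊥ →
      X ⊓ Y ≠ ⊥ := by
    intro i X Y hX hY hXB hYB hX0 hY0 h
    have h1 : ∀ X : Subgroup (M × M), X ≤ B i → X.comap α.toMonoidHom ≤ K i := by
      intro X hX x hx
      obtain ⟨y, hy, hyx⟩ := hX hx
      rwa [α.injective hyx] at hy
    have h2 : ∀ X : Subgroup (M × M), X ≠ ⊥ → X.comap α.toMonoidHom ≠ ⊥ := by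
      intro X hX h
      apply hX
      rw [eq_bot_iff]
      intro x hx
      have : α.symm x ∈ X.comap α.toMonoidHom := by
        change α (α.symm x) ∈ X
        rwa [α.apply_symm_apply]
      rw [h, Subgroup.mem_bot] at this
      rw [Subgroup.mem_bot, ← α.apply_symm_apply x, this, map_one]
    apply K_inter hI i _ _ (hX.comap _) (hY.comap _) (h1 X hXB) (h1 Y hYB) (h2 X hX0) (h2 Y hY0)
    rw [← Subgroup.comap_inf, h, eq_bot_iff]
    intro x hx
    have : α x = 1 := hx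
    rw [Subgroup.mem_bot, ← α.injective.eq_iff, this, map_one]
  have hBc : ∀ {i j}, i ≠ j → Subgroup.centralizer (B i : Set (M × M)) = B j := by
    intro i j hij
    ext x
    rw [Subgroup.mem_centralizer_iff]
    constructor
    · intro hx
      refine ⟨α.symm x, ?_, α.apply_symm_apply x⟩
      rw [← centralizer_K hZ hij]
      refine Subgroup.mem_centralizer_iff.2 fun y hy => ?_
      apply α.injective
      rw [map_mul, map_mul, α.apply_symm_apply]
      exact hx (α y) ⟨y, hy, rfl⟩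
    · rintro ⟨y, hy, rfl⟩ _ ⟨z, hz, rfl⟩
      rw [SetLike.mem_coe, ← centralizer_K hZ hij] at hy
      have := Subgroup.mem_centralizer_iff.1 hy z hz
      change α z * α y = α y * α z
      rw [← map_mul, ← map_mul, this]
  -- key step
  have step : ∀ i j j' : Fin 2, j ≠ j' → B i ⊓ K j' = ⊥ → B i = K j := by
    intro i j j' hj h
    obtain ⟨i', hi⟩ : ∃ i' : Fin 2, i ≠ i' := by
      fin_cases i
      · exact ⟨1, by decide⟩
      · exact ⟨0, by decide⟩
    have h1 : B i ≤ K j := by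
      rw [← centralizer_K hZ hj.symm]
      exact le_centralizer (hBn i) (K_normal j') h
    have h2 : K j ⊓ B i' = ⊥ := by
      by_contra hne
      have h3 := K_inter hI j (B i) (K j ⊓ B i') (hBn i) (by have := hBn i'; infer_instance) h1 inf_le_left (hB0 i) hne
      apply h3
      rw [eq_bot_iff, ← hBinf hi]
      exact le_inf inf_le_left (inf_le_right.trans inf_le_right)
    refine le_antisymm h1 ?_
    rw [← hBc hi.symm]
    exact le_centralizer (K_normal j) (hBn i') h2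
  have hcase : ∀ i, B i = K 0 ∨ B i = K 1 := by
    intro i
    by_cases h : B i ⊓ K 1 = ⊥
    · exact Or.inl (step i 0 1 (by decide) h)
    · by_cases h' : B i ⊓ K 0 = ⊥
      · exact Or.inr (step i 1 0 (by decide) h')
      · exfalso
        have := hBn i
        apply hBI i (B i ⊓ K 0) (B i ⊓ K 1) inferInstance inferInstance inf_le_left inf_le_left h' h
        rw [eq_bot_iff, ← K_inf (M := M) (show (0 : Fin 2) ≠ 1 by decide)]
        exact le_inf (inf_le_left.trans inf_le_right) (inf_le_right.trans inf_le_right)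
  have fin : ∀ i j, B i = K j → ∀ x, x ∈ K i ↔ α x ∈ K j := by
    intro i j h x
    rw [← h]
    constructor
    · intro hx; exact ⟨x, hx, rfl⟩
    · rintro ⟨y, hy, hyx⟩
      rwa [← α.injective hyx]
  have h01 : ∀ j j' : Fin 2, j ≠ j' → B 0 = K j → B 1 = K j' := by
    intro j j' hj h
    rw [← hBc (show (0 : Fin 2) ≠ 1 by decide), h, centralizer_K hZ hj]
  rcases hcase 0 with h | h
  · refine ⟨1, fun i => ?_⟩
    fin_cases i
    · exact fin 0 0 h
    · exact fin 1 1 (h01 0 1 (by decide) h)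
  · refine ⟨swap 0 1, fun i => ?_⟩
    fin_cases i
    · exact fin 0 1 h
    · exact fin 1 0 (h01 1 0 (by decide) h)

end square

section cart

variable {M : Type} [Group M]

/-- the projections -/
def prj (i : Fin 2) : M × M →* M := if i = 0 then MonoidHom.fst M M else MonoidHom.snd M M

theorem mem_K (i : Fin 2) (x : M × M) : x ∈ K i ↔ prj i x = 1 := by
  fin_cases i
  · exact Iff.rfl
  · exact Iff.rfl

theorem prj_surj (i : Fin 2) : Function.Surjective (prj i : M × M →* M) := by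
  intro a
  refine ⟨(a, a), ?_⟩
  fin_cases i <;> rfl

theorem cls_eq {T : Type} [Group T] {m : ℕ} (t t' : Fin (m + 1) → T) :
    cls t = cls t' ↔ ∃ s : T, ∀ j, t' j = s * t j := by
  have h0 : cls t = cls t' ↔ (QuotientGroup.rightRel (diag T m)) t t' :=
    Quotient.eq (r := QuotientGroup.rightRel (diag T m))
  rw [h0, QuotientGroup.rightRel_apply]
  constructor
  · rintro ⟨s, hs⟩
    refine ⟨s, fun j => ?_⟩
    rw [← hs j]; simp
  · rintro ⟨s, hs⟩
    refine ⟨s, fun j => ?_⟩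
    rw [Pi.mul_apply, Pi.inv_apply, hs j, mul_inv_cancel_right]

theorem exists_cls {T : Type} [Group T] {m : ℕ} (x : Om T m) : ∃ t, x = cls t := by
  obtain ⟨t, ht⟩ := Quotient.exists_rep x
  exact ⟨t, ht.symm⟩

/-- the coordinates of a point -/
def coord (m : ℕ) (i : Fin 2) : Om (M × M) m → Om M m :=
  Quotient.lift (fun t => cls fun j => prj i (t j)) (by
    intro t t' h
    have h1 : cls t = cls t' := Quotient.sound h
    rw [cls_eq] at h1
    obtain ⟨s, hs⟩ := h1
    rw [cls_eq]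
    exact ⟨prj i s, fun j => by rw [hs, map_mul]⟩)

theorem coord_cls (m : ℕ) (i : Fin 2) (t : Fin (m + 1) → M × M) :
    coord m i (cls t) = cls fun j => prj i (t j) := rfl

/-- the bijection -/
noncomputable def eC (M : Type) [Group M] (m : ℕ) : Om (M × M) m ≃ (Fin 2 → Om M m) :=
  Equiv.ofBijective (fun x i => coord m i x) (by
    constructor
    · intro x y h
      obtain ⟨t, rfl⟩ := exists_cls x
      obtain ⟨t', rfl⟩ := exists_cls y
      have h0 := congrFun h 0
      have h1 := congrFun h 1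
      simp only [coord_cls] at h0 h1
      rw [cls_eq] at h0 h1
      obtain ⟨s0, h0⟩ := h0
      obtain ⟨s1, h1⟩ := h1
      rw [cls_eq]
      exact ⟨(s0, s1), fun j => Prod.ext (h0 j) (h1 j)⟩
    · intro f
      obtain ⟨t0, h0⟩ := exists_cls (f 0)
      obtain ⟨t1, h1⟩ := exists_cls (f 1)
      refine ⟨cls fun j => (t0 j, t1 j), ?_⟩
      funext i
      fin_cases i
      · exact h0.symm
      · exact h1.symm)

theorem eC_cls (m : ℕ) (i : Fin 2) (t : Fin (m + 1) → M × M) :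
    eC M m (cls t) i = cls fun j => prj i (t j) := rfl

theorem agree (m : ℕ) (i : Fin 2) (t t' : Fin (m + 1) → M × M) :
    eC M m (cls t) i = eC M m (cls t') i ↔ ∃ s : M × M, ∀ j, t' j * (s * t j)⁻¹ ∈ K i := by
  rw [eC_cls, eC_cls, cls_eq]
  constructor
  · rintro ⟨s, hs⟩
    obtain ⟨s', rfl⟩ := prj_surj i s
    refine ⟨s', fun j => ?_⟩
    rw [mem_K, map_mul, map_inv, map_mul, hs j, mul_inv_cancel]
  · rintro ⟨s, hs⟩
    refine ⟨prj i s, fun j => ?_⟩
    have := hs j
    rw [mem_K, map_mul, map_inv, map_mul, mul_inv_eq_one] at this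
    exact this

/-- permuting the coordinate partitions -/
def Pr (m : ℕ) (π : Perm (Om (M × M) m)) : Prop :=
  ∃ ρ : Perm (Fin 2), ∀ x y i, eC M m x i = eC M m y i ↔ eC M m (π x) (ρ i) = eC M m (π y) (ρ i)

theorem DGroup_Pr [Nontrivial M] (hZ : ∀ g : M, g ≠ 1 → ∃ x, x * g ≠ g * x)
    (hI : ∀ N₁ N₂ : Subgroup M, N₁.Normal → N₂.Normal → N₁ ≠ ⊥ → N₂ ≠ ⊥ → N₁ ⊓ N₂ ≠ ⊥) (m : ℕ) (π : Perm (Om (M × M) m)) (hπ : π ∈ DGroup (M × M) m) : Pr m π := by
  induction hπ using Subgroup.closure_induction with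
  | mem π hπ =>
    rcases hπ with (⟨g, hg⟩ | ⟨α, hα⟩) | ⟨s, hs⟩
    · refine ⟨1, fun x y i => ?_⟩
      obtain ⟨t, rfl⟩ := exists_cls x
      obtain ⟨t', rfl⟩ := exists_cls y
      rw [hg, hg]
      change _ ↔ eC M m (cls (t * g)) i = eC M m (cls (t' * g)) i
      rw [agree, agree]
      refine exists_congr fun s => forall_congr' fun j => ?_
      have : (t' * g) j * (s * (t * g) j)⁻¹ = t' j * (s * t j)⁻¹ := by
        simp only [Pi.mul_apply]; group
      rw [this]
    · obtain ⟨ρ, hρ⟩ := aut_K hZ hI α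
      refine ⟨ρ, fun x y i => ?_⟩
      obtain ⟨t, rfl⟩ := exists_cls x
      obtain ⟨t', rfl⟩ := exists_cls y
      rw [hα, hα, agree, agree]
      constructor
      · rintro ⟨s, hs⟩
        refine ⟨α s, fun j => ?_⟩
        have := (hρ i _).1 (hs j)
        rwa [map_mul, map_inv, map_mul] at this
      · rintro ⟨s, hs⟩
        refine ⟨α.symm s, fun j => ?_⟩
        rw [hρ, map_mul, map_inv, map_mul, α.apply_symm_apply]
        exact hs j
    · refine ⟨1, fun x y i => ?_⟩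
      obtain ⟨t, rfl⟩ := exists_cls x
      obtain ⟨t', rfl⟩ := exists_cls y
      rw [hs, hs]
      change _ ↔ eC M m (cls fun j => t (s j)) i = eC M m (cls fun j => t' (s j)) i
      rw [agree, agree]
      refine exists_congr fun r => ?_
      constructor
      · intro h j; exact h (s j)
      · intro h j
        have := h (s.symm j)
        rwa [s.apply_symm_apply] at this
  | one => exact ⟨1, fun x y i => Iff.rfl⟩
  | mul π π' _ _ h h' =>
    obtain ⟨ρ, hρ⟩ := h
    obtain ⟨ρ', hρ'⟩ := h'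
    refine ⟨ρ * ρ', fun x y i => ?_⟩
    rw [hρ' x y i, hρ (π' x) (π' y) (ρ' i)]
    rfl
  | inv π _ h =>
    obtain ⟨ρ, hρ⟩ := h
    refine ⟨ρ⁻¹, fun x y i => ?_⟩
    have h1 := hρ (π⁻¹ x) (π⁻¹ y) (ρ⁻¹ i)
    have e1 : ∀ z, π (π⁻¹ z) = z := fun z => π.apply_symm_apply z
    have e2 : ρ (ρ⁻¹ i) = i := ρ.apply_symm_apply i
    rw [e1, e1, e2] at h1
    exact h1.symm

theorem Pr_QJ (m : ℕ) {π : Perm (Om (M × M) m)} (h : Pr m π⁻¹) (J : Set (Fin 2)) :
    ∃ J', (QJ (eC M m) J).comap π.symm = QJ (eC M m) J' := by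
  obtain ⟨ρ, hρ⟩ := h
  refine ⟨ρ ⁻¹' J, ?_⟩
  ext x y
  change (∀ i, i ∉ J → eC M m (π⁻¹ x) i = eC M m (π⁻¹ y) i) ↔ ∀ i, ρ i ∉ J → eC M m x i = eC M m y i
  constructor
  · intro h i hi
    rw [hρ]; exact h _ hi
  · intro h i hi
    have h1 := (hρ x y (ρ.symm i)).1 (h _ (by rwa [ρ.apply_symm_apply]))
    rwa [ρ.apply_symm_apply] at h1

theorem preserves [Nontrivial M] (hZ : ∀ g : M, g ≠ 1 → ∃ x, x * g ≠ g * x)
    (hI : ∀ N₁ N₂ : Subgroup M, N₁.Normal → N₂.Normal → N₁ ≠ ⊥ → N₂ ≠ ⊥ → N₁ ⊓ N₂ ≠ ⊥) (m : ℕ)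
    (hm : 1 < m) : PreservesCartesian (DGroup (M × M) m) := by
  refine ⟨Om M m, 2, ?_, le_rfl, eC M m, ?_⟩
  · obtain ⟨a, ha⟩ := exists_ne (1 : M)
    refine ⟨cls 1, cls (Pi.mulSingle 0 a), fun h => ?_⟩
    rw [cls_eq] at h
    obtain ⟨s, hs⟩ := h
    have h0 := hs 0
    have h1 := hs (Fin.last m)
    rw [Pi.mulSingle_eq_same, Pi.one_apply, mul_one] at h0
    rw [Pi.mulSingle_eq_of_ne (by rw [Ne, Fin.ext_iff]; simp; omega), Pi.one_apply, mul_one] at h1
    exact ha (h0.trans h1.symm)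
  · intro π hπ
    apply Set.Subset.antisymm
    · rintro _ ⟨_, ⟨J, rfl⟩, rfl⟩
      exact Pr_QJ m (DGroup_Pr hZ hI m _ (inv_mem hπ)) J
    · rintro _ ⟨J, rfl⟩
      obtain ⟨J', hJ'⟩ := Pr_QJ (M := M) m (π := π⁻¹) (DGroup_Pr hZ hI m _ (inv_mem (inv_mem hπ))) J
      refine ⟨QJ (eC M m) J', ⟨J', rfl⟩, ?_⟩
      change (QJ (eC M m) J').comap π.symm = _
      rw [← hJ']
      ext x y
      change (QJ (eC M m) J) (π (π.symm x)) (π (π.symm y)) ↔ _
      rw [π.apply_symm_apply, π.apply_symm_apply]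

end cart

/-! ### Algebraic properties of squares -/

section props

variable {M : Type} [Group M]

theorem square_charSimple (hC : CharSimple M) (hZ : ∀ g : M, g ≠ 1 → ∃ x, x * g ≠ g * x) :
    CharSimple (M × M) := by
  have := hC.1
  refine ⟨inferInstance, fun N hN => ?_⟩
  by_cases hbot : N = ⊥
  · exact Or.inl hbot
  right
  have hN' : ∀ (φ : (M × M) ≃* (M × M)) x, x ∈ N ↔ φ x ∈ N := by
    intro φ x
    have := Subgroup.characteristic_iff_comap_eq.1 hN φ
    conv_lhs => rw [← this]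
    rfl
  have hnorm : N.Normal := Subgroup.normal_of_characteristic N
  -- the part of `N` in the first factor
  set N1 : Subgroup M := N.comap (MonoidHom.inl M M) with hN1
  have h1 : N1.Characteristic := by
    rw [Subgroup.characteristic_iff_comap_eq]
    intro φ
    ext x
    change (φ x, 1) ∈ N ↔ (x, 1) ∈ N
    rw [hN' (MulEquiv.prodCongr φ (MulEquiv.refl M)) (x, 1)]
    exact Iff.rfl
  have hswap : ∀ x : M × M, x ∈ N ↔ x.swap ∈ N := fun x => hN' (MulEquiv.prodComm) x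
  have h2 : N1 ≠ ⊥ := by
    obtain ⟨z, hz⟩ := (Subgroup.ne_bot_iff_exists_ne_one).1 hbot
    have hkey : ∀ z ∈ N, z.1 ≠ 1 → N1 ≠ ⊥ := by
      intro z hz h h0
      obtain ⟨x, hx⟩ := hZ z.1 h
      have h3 : (x, (1 : M)) * z * (x, (1 : M))⁻¹ * z⁻¹ ∈ N :=
        mul_mem (hnorm.conj_mem z hz _) (inv_mem hz)
      have h4 : (x, (1 : M)) * z * (x, (1 : M))⁻¹ * z⁻¹ = (x * z.1 * x⁻¹ * z.1⁻¹, 1) := by
        ext <;> simp
      rw [h4] at h3
      have h5 : x * z.1 * x⁻¹ * z.1⁻¹ ∈ N1 := h3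
      rw [h0, Subgroup.mem_bot] at h5
      apply hx
      rw [mul_inv_eq_one, mul_inv_eq_iff_eq_mul] at h5
      exact h5
    by_cases h : z.1.1 = 1
    · have h' : z.1.2 ≠ 1 := fun h' => hz (Subtype.ext (Prod.ext h h'))
      exact hkey z.1.swap ((hswap _).1 z.2) h'
    · exact hkey z.1 z.2 h
  have h3 : N1 = ⊤ := (hC.2 N1 h1).resolve_left h2
  rw [eq_top_iff]
  rintro ⟨x, y⟩ -
  have h4 : (x, (1 : M)) ∈ N := by
    have : x ∈ N1 := h3 ▸ trivial
    exact this
  have h5 : (y, (1 : M)) ∈ N := by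
    have : y ∈ N1 := h3 ▸ trivial
    exact this
  have h6 : ((1 : M), y) ∈ N := (hswap _).1 h5
  have h7 := mul_mem h4 h6
  simpa using h7

theorem square_not_simple [Nontrivial M] : ¬ IsSimpleGroup (M × M) := by
  intro h
  rcases h.eq_bot_or_eq_top_of_normal (K 0) (K_normal 0) with h | h
  · exact K_ne_bot 0 h
  · obtain ⟨a, ha⟩ := exists_ne (1 : M)
    have : ((a, 1) : M × M) ∈ (K 0 : Subgroup (M × M)) := h ▸ trivial
    exact ha this

theorem not_FCR {T : Type} [Group T] (A : Subgroup T) (hA : A.Normal) (hA0 : A ≠ ⊥)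
    (hAc : ∀ a ∈ A, ∀ b ∈ A, a * b = b * a) : ¬ IsFCR T := by
  classical
  rintro ⟨S, _, k, -, hS, ⟨a0, b0, hab⟩, ⟨φ⟩⟩
  obtain ⟨a, ha⟩ := (Subgroup.ne_bot_iff_exists_ne_one).1 hA0
  have h1 : φ a.1 ≠ 1 := fun h => ha (Subtype.ext (φ.injective (h.trans (map_one φ).symm)))
  obtain ⟨i, hi⟩ := Function.ne_iff.1 h1
  -- centre of `S`
  have hcentre : Subgroup.center S = ⊥ := by
    rcases hS.eq_bot_or_eq_top_of_normal (Subgroup.center S) inferInstance with h | h
    · exact h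
    · exfalso
      apply hab
      have : a0 ∈ Subgroup.center S := h ▸ trivial
      exact (Subgroup.mem_center_iff.1 this b0).symm
  have h2 : ∃ s, s * φ a.1 i ≠ φ a.1 i * s := by
    by_contra hc
    have : φ a.1 i ∈ Subgroup.center S := Subgroup.mem_center_iff.2 fun s => by
      by_contra h; exact hc ⟨s, h⟩
    rw [hcentre, Subgroup.mem_bot] at this
    exact hi this
  obtain ⟨s, hs⟩ := h2
  let B : Subgroup (Fin k → S) := A.comap φ.symm.toMonoidHom
  have hB : B.Normal := hA.comap _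
  have hφa : φ a.1 ∈ B := by
    change φ.symm (φ a.1) ∈ A
    rw [φ.symm_apply_apply]; exact a.2
  have hBc : ∀ x ∈ B, ∀ y ∈ B, x * y = y * x := by
    intro x hx y hy
    apply φ.symm.injective
    rw [map_mul, map_mul]
    exact hAc _ hx _ hy
  let C : Subgroup S := B.comap (MonoidHom.mulSingle (fun _ : Fin k => S) i)
  have hCn : C.Normal := hB.comap _
  have h3 : Pi.mulSingle i s * φ a.1 * (Pi.mulSingle i s)⁻¹ * (φ a.1)⁻¹ ∈ B :=
    mul_mem (hB.conj_mem _ hφa _) (inv_mem hφa)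
  have h4 : Pi.mulSingle i s * φ a.1 * (Pi.mulSingle i s)⁻¹ * (φ a.1)⁻¹ =
      Pi.mulSingle i (s * φ a.1 i * s⁻¹ * (φ a.1 i)⁻¹) := by
    funext j
    by_cases hj : j = i
    · subst hj; simp
    · simp [Pi.mulSingle_eq_of_ne hj]
  rw [h4] at h3
  have h5 : s * φ a.1 i * s⁻¹ * (φ a.1 i)⁻¹ ∈ C := h3
  rcases hS.eq_bot_or_eq_top_of_normal C hCn with h | h
  · rw [h, Subgroup.mem_bot, mul_inv_eq_one, mul_inv_eq_iff_eq_mul] at h5
    exact hs h5
  · apply hab
    have h6 : a0 ∈ C := h ▸ trivial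
    have h7 : b0 ∈ C := h ▸ trivial
    have h8 := hBc _ h6 _ h7
    have h9 := congrFun h8 i
    simpa using h9

theorem square_not_FCR (A : Subgroup M) (hA : A.Normal) (hA0 : A ≠ ⊥)
    (hAc : ∀ a ∈ A, ∀ b ∈ A, a * b = b * a) : ¬ IsFCR (M × M) := by
  refine not_FCR (A.comap (MonoidHom.fst M M) ⊓ K 1) ?_ ?_ ?_
  · have h1 := hA.comap (MonoidHom.fst M M)
    infer_instance
  · obtain ⟨a, ha⟩ := (Subgroup.ne_bot_iff_exists_ne_one).1 hA0
    intro h
    have h1 : ((a.1, 1) : M × M) ∈ A.comap (MonoidHom.fst M M) ⊓ K 1 := ⟨a.2, rfl⟩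
    rw [h, Subgroup.mem_bot] at h1
    exact ha (Subtype.ext (congrArg Prod.fst h1))
  · rintro x ⟨h1, h2⟩ y ⟨h3, h4⟩
    have h2' : x.2 = 1 := h2
    have h4' : y.2 = 1 := h4
    ext
    · exact hAc _ h1 _ h3
    · simp [h2', h4']

end props

/-! ### The McLain group -/

section mclain

/-- vector space with basis indexed by the rationals -/
abbrev V : Type := ℚ →₀ ZMod 2

theorem add_self (c : ZMod 2) : c + c = 0 := by revert c; decide

/-- the transvection -/
noncomputable def tvL (α β : ℚ) : V →ₗ[ZMod 2] V :=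
  LinearMap.id + (Finsupp.lsingle α).comp (Finsupp.lapply β)

theorem tvL_apply (α β : ℚ) (v : V) : tvL α β v = v + Finsupp.single α (v β) := rfl

theorem tvL_tvL {α β : ℚ} (h : α ≠ β) (v : V) : tvL α β (tvL α β v) = v := by
  rw [tvL_apply, tvL_apply, Finsupp.add_apply, Finsupp.single_eq_of_ne h.symm, add_zero, add_assoc,
    ← Finsupp.single_add, add_self, Finsupp.single_zero, add_zero]

/-- the transvection as an automorphism; the identity if `α = β` -/
noncomputable def tv (α β : ℚ) : V ≃ₗ[ZMod 2] V :=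
  if h : α ≠ β then LinearEquiv.ofInvolutive (tvL α β) (tvL_tvL h) else 1

theorem tv_apply {α β : ℚ} (h : α ≠ β) (v : V) : tv α β v = v + Finsupp.single α (v β) := by
  rw [tv, dif_pos h]; rfl

/-- The McLain group: generated by the elementary transvections `x_{α β}`, `α < β`. -/
noncomputable def Mc : Subgroup (V ≃ₗ[ZMod 2] V) := Subgroup.closure {g | ∃ α β : ℚ, α < β ∧ g = tv α β}

theorem tv_mem {α β : ℚ} (h : α < β) : tv α β ∈ Mc := Subgroup.subset_closure ⟨α, β, h, rfl⟩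

/-- the generators -/
noncomputable def X (α β : ℚ) (h : α < β) : Mc := ⟨tv α β, tv_mem h⟩

theorem tv_mul_self {α β : ℚ} (h : α ≠ β) : tv α β * tv α β = 1 := by
  apply LinearEquiv.ext
  intro v
  change tv α β (tv α β v) = v
  rw [tv_apply h, tv_apply h, Finsupp.add_apply, Finsupp.single_eq_of_ne h.symm, add_zero, add_assoc,
    ← Finsupp.single_add, add_self, Finsupp.single_zero, add_zero]

theorem tv_inv {α β : ℚ} (h : α ≠ β) : (tv α β)⁻¹ = tv α β := inv_eq_of_mul_eq_one_left (tv_mul_self h)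

theorem fix_small (g : V ≃ₗ[ZMod 2] V) (hg : g ∈ Mc) :
    ∃ a : ℚ, ∀ γ < a, ∀ c, g (Finsupp.single γ c) = Finsupp.single γ c := by
  induction hg using Subgroup.closure_induction with
  | mem g hg =>
    obtain ⟨α, β, h, rfl⟩ := hg
    refine ⟨β, fun γ hγ c => ?_⟩
    rw [tv_apply h.ne, Finsupp.single_eq_of_ne hγ.ne', Finsupp.single_zero, add_zero]
  | one => exact ⟨0, fun _ _ _ => rfl⟩
  | mul g h _ _ hg hh =>
    obtain ⟨a, ha⟩ := hg
    obtain ⟨b, hb⟩ := hh
    refine ⟨min a b, fun γ hγ c => ?_⟩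
    change g (h _) = _
    rw [hb γ (hγ.trans_le (min_le_right _ _)), ha γ (hγ.trans_le (min_le_left _ _))]
  | inv g _ hg =>
    obtain ⟨a, ha⟩ := hg
    refine ⟨a, fun γ hγ c => ?_⟩
    change g.symm _ = _
    rw [LinearEquiv.symm_apply_eq, ha γ hγ]

theorem ne_one_exists {g : V ≃ₗ[ZMod 2] V} (hg : g ≠ 1) :
    ∃ α β : ℚ, (Finsupp.single β (1 : ZMod 2) : V) α + (g (Finsupp.single β 1)) α = 1 := by
  by_contra hc
  apply hg
  have h1 : ∀ α β : ℚ, (g (Finsupp.single β 1)) α = (Finsupp.single β (1 : ZMod 2) : V) α := by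
    intro α β
    by_contra h
    apply hc
    refine ⟨α, β, ?_⟩
    generalize (g (Finsupp.single β 1)) α = x at h
    generalize (Finsupp.single β (1 : ZMod 2) : V) α = y at h
    revert x y; decide
  apply LinearEquiv.toLinearMap_injective
  apply Finsupp.lhom_ext'
  intro β
  apply LinearMap.ext_ring
  ext α
  exact h1 α β

theorem key {g : Mc} (hg : g ≠ 1) : ∃ a b : ℚ, ∀ γ δ (_ : γ < a) (_ : b < δ) (h : γ < δ),
    ∀ N : Subgroup Mc, N.Normal → g ∈ N → X γ δ h ∈ N := by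
  have hginv : (g⁻¹ : Mc).1 ≠ 1 := by
    intro h
    apply hg
    rw [← inv_eq_one]
    exact Subtype.ext h
  obtain ⟨α, β, hαβ⟩ := ne_one_exists hginv
  obtain ⟨a0, ha0⟩ := fix_small g.1 g.2
  refine ⟨min a0 (min α β), β, fun γ δ h1 h2 h N hN hgN => ?_⟩
  have hγa0 : γ < a0 := h1.trans_le (min_le_left _ _)
  have hγα : γ < α := h1.trans_le ((min_le_right _ _).trans (min_le_left _ _))
  have hγβ : γ < β := h1.trans_le ((min_le_right _ _).trans (min_le_right _ _))
  have hgs : ∀ c, g.1 (Finsupp.single γ c) = Finsupp.single γ c := ha0 γ hγa0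
  set x : Mc := X γ α hγα with hx
  set y : Mc := X β δ h2 with hy
  set k : Mc := x * g * x⁻¹ * g⁻¹ with hk
  have hkN : k ∈ N := mul_mem (hN.conj_mem g hgN x) (inv_mem hgN)
  have hk' : ∀ v, k.1 v = v + Finsupp.single γ (v α + ((g⁻¹ : Mc).1 v) α) := by
    intro v
    change tv γ α (g.1 ((tv γ α)⁻¹ ((g⁻¹ : Mc).1 v))) = _
    rw [tv_inv hγα.ne, tv_apply hγα.ne, tv_apply hγα.ne, map_add, hgs]
    have h3 : g.1 ((g⁻¹ : Mc).1 v) = v := g.1.apply_symm_apply v
    rw [h3, Finsupp.add_apply, Finsupp.single_eq_of_ne hγα.ne', add_zero, add_assoc, ← Finsupp.single_add,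
      add_comm (v α)]
  have hgoal : k * y = X γ δ h * y * k := by
    apply Subtype.ext
    apply LinearEquiv.ext
    intro v
    change k.1 (tv β δ v) = tv γ δ (tv β δ (k.1 v))
    have h4 : ∀ c : ZMod 2, ((g⁻¹ : Mc).1 (Finsupp.single β c)) α = c * ((g⁻¹ : Mc).1 (Finsupp.single β 1)) α := by
      intro c
      have : (Finsupp.single β c : V) = c • Finsupp.single β 1 := by rw [Finsupp.smul_single, smul_eq_mul, mul_one]
      rw [this, map_smul, Finsupp.smul_apply, smul_eq_mul]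
    have h5 : ∀ c : ZMod 2, (Finsupp.single β c : V) α = c * (Finsupp.single β (1 : ZMod 2) : V) α := by
      intro c
      have : (Finsupp.single β c : V) = c • Finsupp.single β 1 := by rw [Finsupp.smul_single, smul_eq_mul, mul_one]
      rw [this, Finsupp.smul_apply, smul_eq_mul]
    rw [tv_apply h2.ne, hk', hk', tv_apply h.ne, tv_apply h2.ne]
    rw [map_add, Finsupp.add_apply, Finsupp.add_apply, h4, h5]
    simp only [Finsupp.add_apply]
    rw [Finsupp.single_eq_of_ne h.ne', Finsupp.single_eq_of_ne h2.ne', add_zero, add_zero]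
    have h6 : v α + v δ * (Finsupp.single β (1 : ZMod 2) : V) α + (((g⁻¹ : Mc).1 v) α +
        v δ * ((g⁻¹ : Mc).1 (Finsupp.single β 1)) α) = (v α + ((g⁻¹ : Mc).1 v) α) + v δ := by
      have : v δ * (Finsupp.single β (1 : ZMod 2) : V) α + v δ * ((g⁻¹ : Mc).1 (Finsupp.single β 1)) α = v δ := by
        rw [← mul_add, hαβ, mul_one]
      linear_combination this
    rw [h6, Finsupp.single_add]
    abel
  have hfin : X γ δ h = k * (y * k⁻¹ * y⁻¹) := by
    have h7 : k * y * k⁻¹ * y⁻¹ = X γ δ h := by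
      rw [hgoal]; group
    rw [← h7]; group
  rw [hfin]
  exact mul_mem hkN (hN.conj_mem _ (inv_mem hkN) y)

theorem X_ne_one {γ δ : ℚ} (h : γ < δ) : X γ δ h ≠ 1 := by
  intro h1
  have h2 := congrArg (fun g : Mc => g.1 (Finsupp.single δ 1) γ) h1
  change tv γ δ (Finsupp.single δ 1) γ = (Finsupp.single δ (1 : ZMod 2) : V) γ at h2
  rw [tv_apply h.ne, Finsupp.add_apply, Finsupp.single_eq_same, Finsupp.single_eq_same,
    Finsupp.single_eq_of_ne h.ne] at h2
  simp at h2

theorem Mc_nontrivial : Nontrivial Mc := ⟨X 0 1 one_pos, 1, X_ne_one _⟩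

theorem Mc_inter (N₁ N₂ : Subgroup Mc) (h₁ : N₁.Normal) (h₂ : N₂.Normal) (h₁' : N₁ ≠ ⊥) (h₂' : N₂ ≠ ⊥) :
    N₁ ⊓ N₂ ≠ ⊥ := by
  obtain ⟨g, hg⟩ := (Subgroup.ne_bot_iff_exists_ne_one).1 h₁'
  obtain ⟨g', hg'⟩ := (Subgroup.ne_bot_iff_exists_ne_one).1 h₂'
  obtain ⟨a, b, h⟩ := key (g := g.1) (fun h => hg (Subtype.ext h))
  obtain ⟨a', b', h'⟩ := key (g := g'.1) (fun h => hg' (Subtype.ext h))
  set γ := min (min a a') (min b b') - 1 with hγ
  set δ := max (max b b') (max a a') + 1 with hδ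
  have e1 : γ < a := by
    have := (min_le_left (min a a') (min b b')).trans (min_le_left a a'); linarith
  have e2 : γ < a' := by
    have := (min_le_left (min a a') (min b b')).trans (min_le_right a a'); linarith
  have e3 : b < δ := by
    have := (le_max_left b b').trans (le_max_left (max b b') (max a a')); linarith
  have e4 : b' < δ := by
    have := (le_max_right b b').trans (le_max_left (max b b') (max a a')); linarith
  have e5 : a < δ := by
    have := (le_max_left a a').trans (le_max_right (max b b') (max a a')); linarith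
  have e6 : γ < δ := e1.trans e5
  intro hbot
  have h1 : X γ δ e6 ∈ N₁ ⊓ N₂ := ⟨h γ δ e1 e3 e6 N₁ h₁ g.2, h' γ δ e2 e4 e6 N₂ h₂ g'.2⟩
  rw [hbot, Subgroup.mem_bot] at h1
  exact X_ne_one _ h1

theorem Mc_centre (g : Mc) (hg : g ≠ 1) : ∃ x, x * g ≠ g * x := by
  by_contra hc
  have hcen : g ∈ Subgroup.center Mc := Subgroup.mem_center_iff.2 fun x => by
    by_contra h; exact hc ⟨x, h⟩
  obtain ⟨a, b, h⟩ := key hg
  set γ := min a b - 1 with hγ
  set δ := max a b + 1 with hδ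
  have e1 : γ < a := by have := min_le_left a b; linarith
  have e2 : b < δ := by have := le_max_right a b; linarith
  have e3 : a < δ := by have := le_max_left a b; linarith
  have e4 : γ < δ := e1.trans e3
  have h1 := h γ δ e1 e2 e4 (Subgroup.center Mc) inferInstance hcen
  have h2 := Subgroup.mem_center_iff.1 h1 (X δ (δ + 1) (by linarith))
  have h3 := congrArg (fun g : Mc => g.1 (Finsupp.single (δ + 1) 1) γ) h2
  change tv δ (δ + 1) (tv γ δ (Finsupp.single (δ + 1) 1)) γ = tv γ δ (tv δ (δ + 1) (Finsupp.single (δ + 1) 1)) γ at h3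
  have n1 : δ ≠ δ + 1 := by linarith
  have n2 : γ ≠ δ + 1 := by linarith
  rw [tv_apply n1, tv_apply e4.ne, tv_apply e4.ne, tv_apply n1] at h3
  simp only [Finsupp.add_apply, Finsupp.single_eq_same, Finsupp.single_eq_of_ne n1, Finsupp.single_eq_of_ne n1.symm,
    Finsupp.single_eq_of_ne n2, Finsupp.single_eq_of_ne n2.symm, Finsupp.single_eq_of_ne e4.ne, Finsupp.single_eq_of_ne e4.ne',
    add_zero, zero_add, Finsupp.single_zero, Finsupp.zero_apply] at h3
  simp at h3

/-- affine automorphism of the rational line -/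
def aff (c d : ℚ) (hc : c ≠ 0) : ℚ ≃ ℚ where
  toFun q := c * q + d
  invFun q := (q - d) / c
  left_inv q := by field_simp; ring
  right_inv q := by field_simp; ring

/-- the induced linear automorphism -/
noncomputable def Pm (e : ℚ ≃ ℚ) : V ≃ₗ[ZMod 2] V := Finsupp.domLCongr e

theorem conj_tv (e : ℚ ≃ ℚ) {α β : ℚ} (h : α ≠ β) : Pm e * tv α β * (Pm e)⁻¹ = tv (e α) (e β) := by
  rw [mul_inv_eq_iff_eq_mul]
  apply LinearEquiv.ext
  intro v
  change Pm e (tv α β v) = tv (e α) (e β) (Pm e v)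
  rw [tv_apply h, tv_apply (fun h' => h (e.injective h')), map_add]
  have h1 : Pm e (Finsupp.single α (v β)) = Finsupp.single (e α) (v β) := by
    rw [Pm, Finsupp.domLCongr_single]
  have h2 : (Pm e v) (e β) = v β := by
    rw [Pm, Finsupp.domLCongr_apply]
    simp
  rw [h1, h2]

theorem map_conj (e : ℚ ≃ ℚ) (he : ∀ a b, a < b ↔ e a < e b) :
    Mc.map (MulAut.conj (Pm e)).toMonoidHom = Mc := by
  rw [Mc, MonoidHom.map_closure]
  congr 1
  ext g
  constructor
  · rintro ⟨_, ⟨α, β, h, rfl⟩, rfl⟩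
    refine ⟨e α, e β, (he _ _).1 h, ?_⟩
    exact conj_tv e h.ne
  · rintro ⟨α, β, h, rfl⟩
    have h' : e.symm α < e.symm β := by rw [he, e.apply_symm_apply, e.apply_symm_apply]; exact h
    refine ⟨tv (e.symm α) (e.symm β), ⟨_, _, h', rfl⟩, ?_⟩
    have := conj_tv e h'.ne
    rw [e.apply_symm_apply, e.apply_symm_apply] at this
    exact this

/-- the automorphism of the McLain group induced by an order automorphism -/
noncomputable def autMc (e : ℚ ≃ ℚ) (he : ∀ a b, a < b ↔ e a < e b) : Mc ≃* Mc :=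
  ((MulAut.conj (Pm e)).subgroupMap Mc).trans (MulEquiv.subgroupCongr (map_conj e he))

theorem autMc_X (e : ℚ ≃ ℚ) (he : ∀ a b, a < b ↔ e a < e b) {α β : ℚ} (h : α < β) :
    autMc e he (X α β h) = X (e α) (e β) ((he _ _).1 h) := Subtype.ext (conj_tv e h.ne)

theorem Mc_charSimple : CharSimple Mc := by
  refine ⟨Mc_nontrivial, fun N hN => ?_⟩
  by_cases hbot : N = ⊥
  · exact Or.inl hbot
  right
  obtain ⟨g, hg⟩ := (Subgroup.ne_bot_iff_exists_ne_one).1 hbot
  obtain ⟨a, b, h⟩ := key (g := g.1) (fun h => hg (Subtype.ext h))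
  have hnorm : N.Normal := Subgroup.normal_of_characteristic N
  set γ := min a b - 1 with hγ
  set δ := max a b + 1 with hδ
  have e1 : γ < a := by have := min_le_left a b; linarith
  have e2 : b < δ := by have := le_max_right a b; linarith
  have e3 : a < δ := by have := le_max_left a b; linarith
  have e4 : γ < δ := e1.trans e3
  have h1 := h γ δ e1 e2 e4 N hnorm g.2
  have h2 : ∀ α β (h : α < β), X α β h ∈ N := by
    intro α β hαβ
    have hc : 0 < (β - α) / (δ - γ) := div_pos (by linarith) (by linarith)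
    have hd : δ - γ ≠ 0 := by linarith
    have he : ∀ p q, p < q ↔ aff ((β - α) / (δ - γ)) (α - (β - α) / (δ - γ) * γ) hc.ne' p <
        aff ((β - α) / (δ - γ)) (α - (β - α) / (δ - γ) * γ) hc.ne' q := by
      intro p q
      change _ ↔ (β - α) / (δ - γ) * p + _ < (β - α) / (δ - γ) * q + _
      rw [add_lt_add_iff_right, mul_lt_mul_iff_right₀ hc]
    have h3 := Subgroup.characteristic_iff_comap_eq.1 hN (autMc _ he)
    rw [← h3] at h1
    change autMc _ he (X γ δ e4) ∈ N at h1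
    rw [autMc_X] at h1
    convert h1 using 2
    · change α = (β - α) / (δ - γ) * γ + (α - (β - α) / (δ - γ) * γ); ring
    · change β = (β - α) / (δ - γ) * δ + (α - (β - α) / (δ - γ) * γ)
      field_simp; ring
  rw [eq_top_iff]
  rintro ⟨g, hg⟩ -
  have h3 : ∀ g (hg : g ∈ Mc), (⟨g, hg⟩ : Mc) ∈ N := by
    intro g hg
    induction hg using Subgroup.closure_induction with
    | mem g hg =>
      obtain ⟨α, β, hαβ, rfl⟩ := hg
      exact h2 α β hαβ
    | one => exact one_mem N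
    | mul x y hx hy ihx ihy => exact mul_mem ihx ihy
    | inv x hx ihx => exact inv_mem ihx
  exact h3 g hg

/-- triangularity -/
theorem triang (g : V ≃ₗ[ZMod 2] V) (hg : g ∈ Mc) :
    (∀ t : ℚ, ∀ v : V, (∀ p, t < p → v p = 0) → ∀ p, t < p → (g v) p = 0) ∧
    (∀ t : ℚ, ∀ v : V, (∀ p, t < p → v p = 0) → ∀ p, t < p → (g⁻¹ v) p = 0) ∧
    (∀ t : ℚ, ∀ v : V, (∀ p, t ≤ p → v p = 0) → ∀ p, t ≤ p → (g v) p = 0) ∧
    (∀ t : ℚ, ∀ v : V, (∀ p, t ≤ p → v p = 0) → ∀ p, t ≤ p → (g⁻¹ v) p = 0) := by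
  induction hg using Subgroup.closure_induction with
  | mem g hg =>
    obtain ⟨α, β, h, rfl⟩ := hg
    rw [tv_inv h.ne]
    have h1 : ∀ t : ℚ, ∀ v : V, (∀ p, t < p → v p = 0) → ∀ p, t < p → (tv α β v) p = 0 := by
      intro t v hv p hp
      rw [tv_apply h.ne, Finsupp.add_apply, hv p hp, zero_add]
      by_cases hpα : p = α
      · subst hpα; rw [Finsupp.single_eq_same, hv β (hp.trans h)]
      · rw [Finsupp.single_eq_of_ne hpα]
    have h2 : ∀ t : ℚ, ∀ v : V, (∀ p, t ≤ p → v p = 0) → ∀ p, t ≤ p → (tv α β v) p = 0 := by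
      intro t v hv p hp
      rw [tv_apply h.ne, Finsupp.add_apply, hv p hp, zero_add]
      by_cases hpα : p = α
      · subst hpα; rw [Finsupp.single_eq_same, hv β (hp.trans h.le)]
      · rw [Finsupp.single_eq_of_ne hpα]
    exact ⟨h1, h1, h2, h2⟩
  | one => 
    refine ⟨fun t v hv p hp => hv p hp, fun t v hv p hp => ?_, fun t v hv p hp => hv p hp, fun t v hv p hp => ?_⟩
    · rw [inv_one]; exact hv p hp
    · rw [inv_one]; exact hv p hp
  | mul x y _ _ hx hy =>
    obtain ⟨a1, a2, a3, a4⟩ := hx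
    obtain ⟨b1, b2, b3, b4⟩ := hy
    rw [mul_inv_rev]
    exact ⟨fun t v hv => a1 t _ (b1 t v hv), fun t v hv => b2 t _ (a2 t v hv), fun t v hv => a3 t _ (b3 t v hv),
      fun t v hv => b4 t _ (a4 t v hv)⟩
  | inv x _ hx =>
    obtain ⟨a1, a2, a3, a4⟩ := hx
    rw [inv_inv]
    exact ⟨a2, a1, a4, a3⟩

/-- an abelian normal subgroup -/
noncomputable def Ab : Subgroup Mc where
  carrier := {g | (∀ v : V, (∀ p, 1 ≤ p → v p = 0) → g.1 v = v) ∧ ∀ v : V, ∀ p, 0 < p → (g.1 v) p = v p}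
  mul_mem' := by
    rintro a b ⟨a1, a2⟩ ⟨b1, b2⟩
    refine ⟨fun v hv => ?_, fun v p hp => ?_⟩
    · change a.1 (b.1 v) = v
      rw [b1 v hv, a1 v hv]
    · change (a.1 (b.1 v)) p = v p
      rw [a2 _ p hp, b2 _ p hp]
  one_mem' := ⟨fun _ _ => rfl, fun _ _ _ => rfl⟩
  inv_mem' := by
    rintro a ⟨a1, a2⟩
    have h : ∀ v, a.1 ((a⁻¹ : Mc).1 v) = v := fun v => a.1.apply_symm_apply v
    refine ⟨fun v hv => ?_, fun v p hp => ?_⟩
    · apply a.1.injective
      rw [h, a1 v hv]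
    · rw [← a2 _ p hp, h]

theorem Ab_normal : Ab.Normal := by
  refine ⟨fun g hg h => ?_⟩
  obtain ⟨g1, g2⟩ := hg
  obtain ⟨h1, h2, h3, h4⟩ := triang h.1 h.2
  have hh : ∀ v, h.1 ((h⁻¹ : Mc).1 v) = v := fun v => h.1.apply_symm_apply v
  refine ⟨fun v hv => ?_, fun v p hp => ?_⟩
  · change h.1 (g.1 ((h⁻¹ : Mc).1 v)) = v
    have h5 : g.1 ((h⁻¹ : Mc).1 v) = (h⁻¹ : Mc).1 v := g1 _ (h4 1 v hv)
    rw [h5, hh]
  · change (h.1 (g.1 ((h⁻¹ : Mc).1 v))) p = v p
    have e1 : g.1 ((h⁻¹ : Mc).1 v) = (h⁻¹ : Mc).1 v + (g.1 ((h⁻¹ : Mc).1 v) - (h⁻¹ : Mc).1 v) := by abel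
    rw [e1, map_add, hh, Finsupp.add_apply, h1 0 _ ?_ p hp, add_zero]
    intro q hq
    rw [Finsupp.sub_apply, g2 _ q hq, sub_self]

theorem Ab_comm : ∀ a ∈ Ab, ∀ b ∈ Ab, a * b = b * a := by
  have key : ∀ a ∈ Ab, ∀ b ∈ Ab, ∀ v, a.1 (b.1 v) = a.1 v + (b.1 v - v) := by
    rintro a ⟨a1, a2⟩ b ⟨b1, b2⟩ v
    have e1 : b.1 v = v + (b.1 v - v) := by abel
    conv_lhs => rw [e1]
    rw [map_add, a1 (b.1 v - v)]
    intro p hp
    rw [Finsupp.sub_apply, b2 _ p (lt_of_lt_of_le one_pos hp), sub_self]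
  intro a ha b hb
  apply Subtype.ext
  apply LinearEquiv.ext
  intro v
  change a.1 (b.1 v) = b.1 (a.1 v)
  rw [key a ha b hb, key b hb a ha]
  abel

theorem Ab_ne : Ab ≠ ⊥ := by
  intro h
  have h1 : X 0 1 one_pos ∈ Ab := by
    refine ⟨fun v hv => ?_, fun v p hp => ?_⟩
    · change tv 0 1 v = v
      rw [tv_apply zero_ne_one, hv 1 le_rfl, Finsupp.single_zero, add_zero]
    · change (tv 0 1 v) p = v p
      rw [tv_apply zero_ne_one, Finsupp.add_apply, Finsupp.single_eq_of_ne hp.ne', add_zero]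
  rw [h, Subgroup.mem_bot] at h1
  exact X_ne_one _ h1

end mclain

/-- There is a non-abelian characteristically simple group `T` (the square of the McLain group over `F_2`
indexed by the rationals), neither simple nor FCR, such that for every `m > 1` the diagonal group `D(T, m)`
preserves a Cartesian lattice. -/
theorem result : ∃ (T : Type) (_ : Group T), (∃ a b : T, a * b ≠ b * a) ∧ CharSimple T ∧ ¬ IsSimpleGroup T ∧
    ¬ IsFCR T ∧ ∀ m : ℕ, 1 < m → PreservesCartesian (DGroup T m) := by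
  have := Mc_nontrivial
  refine ⟨Mc × Mc, inferInstance, ?_, square_charSimple Mc_charSimple Mc_centre, square_not_simple,
    square_not_FCR Ab Ab_normal Ab_ne Ab_comm, fun m hm => preserves Mc_centre Mc_inter m hm⟩
  obtain ⟨x, hx⟩ := Mc_centre (X 0 1 one_pos) (X_ne_one _)
  exact ⟨(x, 1), (X 0 1 one_pos, 1), fun h => hx (congrArg Prod.fst h)⟩

end Pool.Agent.Results.MP_f6f6d4_al.McLainSquare
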